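import Pool.Agent.LKU.Stmts
import Pool.Agent.Helper72_LKT.AFF

/-!
# LKU, row AFB: the brackets are continuous and affine in each vector
-/

set_option autoImplicit false

namespace Pool.Agent.LKU.H77

open Pool.Agent.LCK Pool.Agent.LKT Pool.Agent.LKU

theorem tb2_ne : ∀ i < 53, (tb2 i).1 ≠ (tb2 i).2.1 ∧ (tb2 i).1 ≠ (tb2 i).2.2.1 ∧
    (tb2 i).1 ≠ (tb2 i).2.2.2.1 ∧ (tb2 i).2.1 ≠ (tb2 i).2.2.1 ∧ (tb2 i).2.1 ≠ (tb2 i).2.2.2.1 ∧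
    (tb2 i).2.2.1 ≠ (tb2 i).2.2.2.1 := by
  decide

theorem afb : AfbStmt := by
  refine ⟨fun i => ?_, fun i hi x k => ?_⟩
  · unfold F2
    exact continuous_const.mul (Pool.Agent.LKT.H72.cont_D _ _ _ _)
  · obtain ⟨h1, h2, h3, h4, h5, h6⟩ := tb2_ne i hi
    obtain ⟨al, be, h⟩ := Pool.Agent.LKT.H72.D_aff _ _ _ _ h1 h2 h3 h4 h5 h6 x k
    refine ⟨((tb2 i).2.2.2.2 : ℝ) • al, ((tb2 i).2.2.2.2 : ℝ) * be, fun y => ?_⟩
    unfold F2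
    rw [h y, real_inner_smul_left]
    ring

end Pool.Agent.LKU.H77
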